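import Pool.Agent.Helper60.FM.Main
import Pool.Agent.Helper60.FM.Transport

/-!
# Even Galois representations with reducible reduction

`Qb` is an algebraic closure of `ℚ`, `GQ` its Galois group with the Krull topology.

Let `p` be an odd prime number, `E` a complete ultrametric normed field containing `ℚ_[p]`,
`K/ℚ` a finite abelian extension containing a primitive `p`-th root of unity `ζ`,
`σ ζ = ζ ^ ω(σ)`, `j : K → Qb` an embedding, and `χ₁, χ₂ : Gal(K/ℚ) → Eˣ` two characters.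
Let `V : GQ → GL₂(E)` be continuous, unramified outside the set `S` of prime numbers (`p` may
belong to `S`), even (`det V(c) = 1` for all complex conjugations) with `tr V ≡ χ₁ + χ₂` modulo
the maximal ideal. Let `ψ = ω χ₂ / χ₁` (modulo the maximal ideal). Assume

* no prime of `K` above `S` has its decomposition group in the kernel of `ψ` (`LocCond`),
* an ideal `𝔞` of `K` with `𝔞 ^ p` principal is principal if it is killed by all relations of `ψ`
  (`ClsCond`; this says that the part of the class group of `K` on which `Gal(K/ℚ)` acts through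
  `ψ` has trivial `p`-torsion, and it holds if `p` does not divide the class number of `K`),
* `χ₁` and `χ₂` are not congruent, or `p` does not divide `[K : ℚ]`.

Then `V` has a stable line or its image is commutative.
-/

open NumberField Pointwise Matrix

namespace Pool.Agent.Helper60.Kept.EvenReducible

open Pool.Agent.Helper60.FM

section defs

variable {E : Type*} [NormedField E] {K : Type} [Field K] [NumberField K]

/-- `ψ(σ)` is not congruent to `1` for some `σ` in the decomposition group of `P`, for each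
prime `P` of `K` above `S`; here `ψ = ω χ₂ / χ₁` and `χ₁` has absolute value one. -/
def LocCond (ω : Gal(K/ℚ) → ℕ) (χ₁ χ₂ : Gal(K/ℚ) →* Eˣ) (S : Set ℕ) : Prop :=
  ∀ P : Ideal (𝓞 K), P.IsPrime → P ≠ ⊥ → (∃ ℓ ∈ S, (ℓ : 𝓞 K) ∈ P) →
    ∃ σ : Gal(K/ℚ), σ • P = P ∧ 1 ≤ ‖(ω σ : E) * χ₂ σ - χ₁ σ‖

/-- A nonzero ideal `𝔞` of `K` with `𝔞 ^ p` principal is principal if `∏ σ(𝔞) ^ (n σ)` is
principal for all `n ≥ 0` with `∑ (n σ) ψ(σ) ≡ 0`, `ψ = ω χ₂ / χ₁`. -/
def ClsCond (p : ℕ) (ω : Gal(K/ℚ) → ℕ) (χ₁ χ₂ : Gal(K/ℚ) →* Eˣ) : Prop :=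
  ∀ 𝔞 : Ideal (𝓞 K), 𝔞 ≠ ⊥ → (𝔞 ^ p).IsPrincipal →
    (∀ n : Gal(K/ℚ) → ℕ, ‖∑ σ, (n σ : E) * (ω σ * (χ₂ σ * (χ₁ σ)⁻¹ : Eˣ))‖ < 1 →
      (∏ σ, (σ • 𝔞) ^ n σ).IsPrincipal) → 𝔞.IsPrincipal

/-- The semisimple reduction of `V` is `χ₁ ⊕ χ₂`: `tr V(g) ≡ χ₁(σ) + χ₂(σ)` if `σ` is the
restriction of `g` to `K`, embedded by `j`. -/
def ResSum (j : K →+* Qb) (χ₁ χ₂ : Gal(K/ℚ) →* Eˣ) (V : GQ →* GL (Fin 2) E) : Prop :=
  ∀ (g : GQ) (σ : Gal(K/ℚ)), (∀ x, j (σ x) = g (j x)) →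
    ‖trace (V g : Matrix (Fin 2) (Fin 2) E) - χ₁ σ - χ₂ σ‖ < 1

/-- `V` is even: `det V(c) = 1` for all complex conjugations `c`. -/
def IsEven (V : GQ →* GL (Fin 2) E) : Prop :=
  ∀ c : GQ, IsCC c → det (V c : Matrix (Fin 2) (Fin 2) E) = 1

/-- `V` has a stable line (in other words it is reducible). -/
def HasLine (V : GQ →* GL (Fin 2) E) : Prop :=
  ∃ v : Fin 2 → E, v ≠ 0 ∧ ∀ g, ∃ c : E, (V g : Matrix (Fin 2) (Fin 2) E) *ᵥ v = c • v

end defs

theorem result (p : ℕ) [Fact p.Prime] (hp : p ≠ 2)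
    {E : Type*} [NormedField E] [IsUltrametricDist E] [CompleteSpace E] [NormedAlgebra ℚ_[p] E]
    (K : Type) [Field K] [NumberField K] [IsAbelianGalois ℚ K] (j : K →+* Qb)
    (ζ : K) (hζ : IsPrimitiveRoot ζ p) (ω : Gal(K/ℚ) → ℕ) (hω : ∀ σ, σ ζ = ζ ^ ω σ)
    (χ₁ χ₂ : Gal(K/ℚ) →* Eˣ) (S : Set ℕ)
    (hdec : LocCond ω χ₁ χ₂ S) (hcl : ClsCond p ω χ₁ χ₂)
    (hχ : (∃ σ, 1 ≤ ‖(χ₁ σ : E) - χ₂ σ‖) ∨ ¬ p ∣ Module.finrank ℚ K)
    (V : GQ →* GL (Fin 2) E) (hV : Continuous V) (htr : ResSum j χ₁ χ₂ V)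
    (hunr : ∀ ℓ : ℕ, ℓ.Prime → ℓ ∉ S → Unramified V ℓ) (heven : IsEven V) :
    HasLine V ∨ ∀ g h, V g * V h = V h * V g := by
  classical
  let γ := geqv K j
  refine main p (imField K j) hp (aeqv K j ζ)
    (hζ.map_of_injective (f := aeqv K j) (aeqv K j).injective) (fun σ => ω (γ.symm σ)) ?_
    (χ₁.comp γ.symm.toMonoidHom) (χ₂.comp γ.symm.toMonoidHom) S ?_ ?_ ?_ V hV ?_
    (fun ℓ hℓ hℓS => unramAt_of_unramified V ℓ (hunr ℓ hℓ hℓS)) heven
  · intro σ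
    rw [← geqv_symm_apply, hω, map_pow]
  · intro P hP hP0 hℓ
    obtain ⟨ℓ, hℓS, hℓP⟩ := hℓ
    obtain ⟨σ, hσ, hσ1⟩ := hdec (pull K j P) (pull_isPrime K j P hP) (pull_ne_bot K j P hP0)
      ⟨ℓ, hℓS, natCast_mem_pull K j P ℓ hℓP⟩
    refine ⟨γ σ, ?_, ?_⟩
    · apply pull_injective K j
      rw [pull_smul, MulEquiv.symm_apply_apply, hσ]
    · simpa using hσ1
  · intro 𝔞 h𝔞 h𝔞p h
    rw [← pull_isPrincipal]
    refine hcl (pull K j 𝔞) (pull_ne_bot K j 𝔞 h𝔞) ?_ ?_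
    · rw [← map_pow, pull_isPrincipal]
      exact h𝔞p
    · intro n hn
      have h1 := h (fun σ => n (γ.symm σ)) ?_
      · rw [← pull_isPrincipal, map_prod] at h1
        convert h1 using 1
        rw [← Equiv.prod_comp γ.symm.toEquiv]
        refine Finset.prod_congr rfl (fun σ _ => ?_)
        rw [map_pow, pull_smul]
        rfl
      · convert hn using 2
        rw [← Equiv.sum_comp γ.symm.toEquiv]
        rfl
  · rcases hχ with ⟨σ, hσ⟩ | h
    · left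
      exact ⟨γ σ, by simpa using hσ⟩
    · right
      rwa [← LinearEquiv.finrank_eq (aeqv K j).toLinearEquiv]
  · intro g
    exact htr g (γ.symm (res (imField K j) g)) (geqv_symm_res K j g)

end Pool.Agent.Helper60.Kept.EvenReducible
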